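import Mathlib

namespace Pool.Agent.Results.MP_ce02af_co.CubicComponents

open Set

/-- Euclidean 3-space. -/
abbrev E3 : Type := EuclideanSpace ℝ (Fin 3)

/-- A line of 3-space: an affine subspace whose direction has dimension one. -/
def Line : Type := {L : AffineSubspace ℝ E3 // Module.finrank ℝ L.direction = 1}

/-- The line through the point `q.1` with the nonzero direction vector `q.2`. -/
noncomputable def lineThrough (q : E3 × {d : E3 // d ≠ 0}) : Line :=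
  ⟨AffineSubspace.mk' q.1 (Submodule.span ℝ {q.2.1}), by
    rw [AffineSubspace.direction_mk']; exact finrank_span_singleton q.2.2⟩

/-- The usual topology on the space of lines: the quotient topology of
(point, nonzero direction vector). -/
noncomputable instance : TopologicalSpace Line :=
  TopologicalSpace.coinduced lineThrough inferInstance

/-- The transversal space of a family of sets: all lines that meet every member. -/
def transversals {ι : Type*} (F : ι → Set E3) : Set Line :=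
  {L | ∀ i, ((L.1 : Set E3) ∩ F i).Nonempty}

/-- Number of connected components of the transversal space, with values in `ℕ∞`. -/
noncomputable def numComponents {ι : Type*} (F : ι → Set E3) : ℕ∞ :=
  ENat.card (ConnectedComponents (transversals F))

/-- Sets `{p = 0}` or `{p > 0}` with `p` a real polynomial of degree at most `D`. -/
def IsBasic (D : ℕ) (S : Set E3) : Prop :=
  ∃ p : MvPolynomial (Fin 3) ℝ, p.totalDegree ≤ D ∧
    (S = {x : E3 | MvPolynomial.eval (fun i => x i) p = 0} ∨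
     S = {x : E3 | 0 < MvPolynomial.eval (fun i => x i) p})

/-- Semi-algebraic of description complexity at most `(s, D)`: a Boolean combination of at
most `s` basic sets of degree at most `D`. -/
def HasComplexity (s D : ℕ) (A : Set E3) : Prop :=
  ∃ k : ℕ, k ≤ s ∧ ∃ (S : Fin k → Set E3) (Φ : (Fin k → Prop) → Prop),
    (∀ i, IsBasic D (S i)) ∧ A = {x | Φ (fun i => x ∈ S i)}

/-- `C s D n`: the maximum number of connected components of the transversal space over all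
families of `n` distinct convex sets of description complexity at most `(s, D)`. -/
noncomputable def C (s D n : ℕ) : ℕ∞ :=
  ⨆ (F : Fin n → Set E3) (_ : Function.Injective F)
    (_ : ∀ i, Convex ℝ (F i) ∧ HasComplexity s D (F i)), numComponents F

/-- The same maximum with all members required to be compact. -/
noncomputable def Ccompact (s D n : ℕ) : ℕ∞ :=
  ⨆ (F : Fin n → Set E3) (_ : Function.Injective F)
    (_ : ∀ i, IsCompact (F i) ∧ Convex ℝ (F i) ∧ HasComplexity s D (F i)), numComponents F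

/-! ### Lines -/

lemma direction_lineThrough (q : E3 × {d : E3 // d ≠ 0}) :
    (lineThrough q).1.direction = Submodule.span ℝ {q.2.1} :=
  AffineSubspace.direction_mk' _ _

lemma mem_lineThrough (q : E3 × {d : E3 // d ≠ 0}) (z : E3) :
    z ∈ (lineThrough q).1 ↔ ∃ a : ℝ, z = q.1 + a • q.2.1 := by
  unfold lineThrough
  rw [AffineSubspace.mem_mk', Submodule.mem_span_singleton]
  constructor
  · rintro ⟨a, ha⟩
    refine ⟨a, ?_⟩
    rw [ha]; simp
  · rintro ⟨a, ha⟩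
    refine ⟨a, ?_⟩
    rw [ha]; simp

lemma lineThrough_surjective : Function.Surjective lineThrough := by
  rintro ⟨L, hL⟩
  have hne : (L : Set E3).Nonempty := by
    rcases L.eq_bot_or_nonempty with h | h
    · exfalso
      rw [h, AffineSubspace.direction_bot] at hL
      simp at hL
    · exact h
  obtain ⟨x, hx⟩ := hne
  obtain ⟨⟨d, hdm⟩, hd0, hd⟩ := finrank_eq_one_iff'.mp hL
  have hd0' : d ≠ 0 := by
    intro h; apply hd0; ext1; exact h
  refine ⟨(x, ⟨d, hd0'⟩), ?_⟩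
  apply Subtype.ext
  have hspan : Submodule.span ℝ {d} = L.direction := by
    apply le_antisymm
    · rw [Submodule.span_singleton_le_iff_mem]; exact hdm
    · intro v hv
      obtain ⟨c, hc⟩ := hd ⟨v, hv⟩
      rw [Submodule.mem_span_singleton]
      exact ⟨c, congrArg Subtype.val hc⟩
  show AffineSubspace.mk' x (Submodule.span ℝ {d}) = L
  rw [hspan]
  exact AffineSubspace.mk'_eq hx

/-! ### Direction cells -/

/-- Directions strictly inside a cell. -/
def coneO (my ry ms rs : ℝ) (d : E3) : Prop :=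
  |d 1 - my * d 0| < ry * |d 0| ∧ |d 2 - ms * d 0| < rs * |d 0|

/-- Directions in the closed cell. -/
def coneK (my ry ms rs : ℝ) (d : E3) : Prop :=
  |d 1 - my * d 0| ≤ ry * |d 0| ∧ |d 2 - ms * d 0| ≤ rs * |d 0|

/-- Lines with direction strictly inside a cell. -/
def cellO (my ry ms rs : ℝ) : Set Line :=
  {L | ∀ d ∈ L.1.direction, d ≠ 0 → coneO my ry ms rs d}

/-- Lines with direction in the closed cell. -/
def cellK (my ry ms rs : ℝ) : Set Line :=
  {L | ∀ d ∈ L.1.direction, coneK my ry ms rs d}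

lemma coneO_smul {my ry ms rs : ℝ} {d : E3} {a : ℝ} (ha : a ≠ 0)
    (h : coneO my ry ms rs d) : coneO my ry ms rs (a • d) := by
  obtain ⟨h1, h2⟩ := h
  have ha' : 0 < |a| := abs_pos.mpr ha
  constructor
  · have e1 : (a • d) 1 - my * (a • d) 0 = a * (d 1 - my * d 0) := by
      simp only [PiLp.smul_apply, smul_eq_mul]; ring
    have e2 : (a • d) 0 = a * d 0 := by simp only [PiLp.smul_apply, smul_eq_mul]
    rw [e1, e2, abs_mul, abs_mul]
    calc |a| * |d 1 - my * d 0| < |a| * (ry * |d 0|) := by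
          exact mul_lt_mul_of_pos_left h1 ha'
      _ = ry * (|a| * |d 0|) := by ring
  · have e1 : (a • d) 2 - ms * (a • d) 0 = a * (d 2 - ms * d 0) := by
      simp only [PiLp.smul_apply, smul_eq_mul]; ring
    have e2 : (a • d) 0 = a * d 0 := by simp only [PiLp.smul_apply, smul_eq_mul]
    rw [e1, e2, abs_mul, abs_mul]
    calc |a| * |d 2 - ms * d 0| < |a| * (rs * |d 0|) := by
          exact mul_lt_mul_of_pos_left h2 ha'
      _ = rs * (|a| * |d 0|) := by ring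

lemma coneK_smul {my ry ms rs : ℝ} {d : E3} {a : ℝ}
    (h : coneK my ry ms rs d) : coneK my ry ms rs (a • d) := by
  obtain ⟨h1, h2⟩ := h
  have ha' : 0 ≤ |a| := abs_nonneg a
  constructor
  · have e1 : (a • d) 1 - my * (a • d) 0 = a * (d 1 - my * d 0) := by
      simp only [PiLp.smul_apply, smul_eq_mul]; ring
    have e2 : (a • d) 0 = a * d 0 := by simp only [PiLp.smul_apply, smul_eq_mul]
    rw [e1, e2, abs_mul, abs_mul]
    calc |a| * |d 1 - my * d 0| ≤ |a| * (ry * |d 0|) := by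
          exact mul_le_mul_of_nonneg_left h1 ha'
      _ = ry * (|a| * |d 0|) := by ring
  · have e1 : (a • d) 2 - ms * (a • d) 0 = a * (d 2 - ms * d 0) := by
      simp only [PiLp.smul_apply, smul_eq_mul]; ring
    have e2 : (a • d) 0 = a * d 0 := by simp only [PiLp.smul_apply, smul_eq_mul]
    rw [e1, e2, abs_mul, abs_mul]
    calc |a| * |d 2 - ms * d 0| ≤ |a| * (rs * |d 0|) := by
          exact mul_le_mul_of_nonneg_left h2 ha'
      _ = rs * (|a| * |d 0|) := by ring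

lemma mem_cellO_iff {my ry ms rs : ℝ} (q : E3 × {d : E3 // d ≠ 0}) :
    lineThrough q ∈ cellO my ry ms rs ↔ coneO my ry ms rs q.2.1 := by
  constructor
  · intro h
    apply h
    · rw [direction_lineThrough]; exact Submodule.mem_span_singleton_self _
    · exact q.2.2
  · intro h d hd hd0
    rw [direction_lineThrough, Submodule.mem_span_singleton] at hd
    obtain ⟨a, rfl⟩ := hd
    apply coneO_smul _ h
    rintro rfl
    apply hd0; simp

lemma mem_cellK_iff {my ry ms rs : ℝ} (q : E3 × {d : E3 // d ≠ 0}) :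
    lineThrough q ∈ cellK my ry ms rs ↔ coneK my ry ms rs q.2.1 := by
  constructor
  · intro h
    apply h
    rw [direction_lineThrough]; exact Submodule.mem_span_singleton_self _
  · intro h d hd
    rw [direction_lineThrough, Submodule.mem_span_singleton] at hd
    obtain ⟨a, rfl⟩ := hd
    exact coneK_smul h

lemma isOpen_cellO (my ry ms rs : ℝ) : IsOpen (cellO my ry ms rs) := by
  rw [isOpen_coinduced]
  have : lineThrough ⁻¹' cellO my ry ms rs =
      {q : E3 × {d : E3 // d ≠ 0} | |q.2.1 1 - my * q.2.1 0| < ry * |q.2.1 0| ∧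
        |q.2.1 2 - ms * q.2.1 0| < rs * |q.2.1 0|} := by
    ext q
    exact mem_cellO_iff q
  rw [this]
  have h1 : IsOpen {q : E3 × {d : E3 // d ≠ 0} |
      |q.2.1 1 - my * q.2.1 0| < ry * |q.2.1 0|} := isOpen_lt (by fun_prop) (by fun_prop)
  have h2 : IsOpen {q : E3 × {d : E3 // d ≠ 0} |
      |q.2.1 2 - ms * q.2.1 0| < rs * |q.2.1 0|} := isOpen_lt (by fun_prop) (by fun_prop)
  exact h1.inter h2

lemma isClosed_cellK (my ry ms rs : ℝ) : IsClosed (cellK my ry ms rs) := by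
  rw [isClosed_coinduced]
  have : lineThrough ⁻¹' cellK my ry ms rs =
      {q : E3 × {d : E3 // d ≠ 0} | |q.2.1 1 - my * q.2.1 0| ≤ ry * |q.2.1 0| ∧
        |q.2.1 2 - ms * q.2.1 0| ≤ rs * |q.2.1 0|} := by
    ext q
    exact mem_cellK_iff q
  rw [this]
  have h1 : IsClosed {q : E3 × {d : E3 // d ≠ 0} |
      |q.2.1 1 - my * q.2.1 0| ≤ ry * |q.2.1 0|} := isClosed_le (by fun_prop) (by fun_prop)
  have h2 : IsClosed {q : E3 × {d : E3 // d ≠ 0} |
      |q.2.1 2 - ms * q.2.1 0| ≤ rs * |q.2.1 0|} := isClosed_le (by fun_prop) (by fun_prop)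
  exact h1.inter h2

/-! ### Counting components -/

lemma card_le_numComponents {ι κ : Type*} (F : ι → Set E3) (rep : κ → Line)
    (O K : κ → Set Line) (hO : ∀ k, IsOpen (O k)) (hK : ∀ k, IsClosed (K k))
    (hOK : ∀ k, O k ⊆ K k)
    (hT : ∀ k L, L ∈ transversals F → L ∈ K k → L ∈ O k)
    (hrep : ∀ k, rep k ∈ transversals F) (hin : ∀ k, rep k ∈ O k)
    (hsep : ∀ k k', rep k' ∈ O k → k' = k) :
    ENat.card κ ≤ numComponents F := by
  have hinj : Function.Injective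
      (fun k => (ConnectedComponents.mk (⟨rep k, hrep k⟩ : transversals F) :
        ConnectedComponents (transversals F))) := by
    intro a b hab
    simp only at hab
    rw [ConnectedComponents.coe_eq_coe] at hab
    have hcl : IsClopen {x : transversals F | x.1 ∈ O a} := by
      constructor
      · have : {x : transversals F | x.1 ∈ O a} = {x : transversals F | x.1 ∈ K a} := by
          ext x
          exact ⟨fun h => hOK a h, fun h => hT a x.1 x.2 h⟩
        rw [this]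
        exact (hK a).preimage continuous_subtype_val
      · exact (hO a).preimage continuous_subtype_val
    have hsub := hcl.connectedComponent_subset (x := ⟨rep a, hrep a⟩) (hin a)
    have hb : (⟨rep b, hrep b⟩ : transversals F) ∈ connectedComponent
        (⟨rep a, hrep a⟩ : transversals F) := by
      rw [hab]; exact mem_connectedComponent
    exact (hsep a b (hsub hb)).symm
  exact ENat.card_le_card_of_injective hinj

/-! ### Half-planes and planes -/

/-- Affine function. -/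
def af (a : Fin 4 → ℝ) (x : E3) : ℝ := a 0 * x 0 + a 1 * x 1 + a 2 * x 2 + a 3

/-- The planar set `a = 0, b ≤ 0` for affine functions `a`, `b`. -/
def HP (a b : Fin 4 → ℝ) : Set E3 := {x | af a x = 0 ∧ af b x ≤ 0}

/-- Box. -/
def Box (M : ℝ) : Set E3 := {x | ∀ i, |x i| ≤ M}

noncomputable def poly (a : Fin 4 → ℝ) : MvPolynomial (Fin 3) ℝ :=
  MvPolynomial.C (a 0) * MvPolynomial.X 0 + MvPolynomial.C (a 1) * MvPolynomial.X 1 +
    MvPolynomial.C (a 2) * MvPolynomial.X 2 + MvPolynomial.C (a 3)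

lemma eval_poly (a : Fin 4 → ℝ) (x : E3) :
    MvPolynomial.eval (fun i => x i) (poly a) = af a x := by
  simp [poly, af]

lemma totalDegree_poly (a : Fin 4 → ℝ) : (poly a).totalDegree ≤ 1 := by
  have h : ∀ (c : ℝ) (i : Fin 3), (MvPolynomial.C c * MvPolynomial.X i :
      MvPolynomial (Fin 3) ℝ).totalDegree ≤ 1 := by
    intro c i
    refine (MvPolynomial.totalDegree_mul _ _).trans ?_
    rw [MvPolynomial.totalDegree_C, MvPolynomial.totalDegree_X]
  unfold poly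
  refine (MvPolynomial.totalDegree_add _ _).trans (max_le ?_ ?_)
  · refine (MvPolynomial.totalDegree_add _ _).trans (max_le ?_ (h _ _))
    exact (MvPolynomial.totalDegree_add _ _).trans (max_le (h _ _) (h _ _))
  · rw [MvPolynomial.totalDegree_C]; exact zero_le_one

lemma isBasic_eq {D : ℕ} (hD : 1 ≤ D) (a : Fin 4 → ℝ) : IsBasic D {x : E3 | af a x = 0} :=
  ⟨poly a, (totalDegree_poly a).trans hD, Or.inl (by ext x; simp [eval_poly])⟩

lemma isBasic_pos {D : ℕ} (hD : 1 ≤ D) (a : Fin 4 → ℝ) : IsBasic D {x : E3 | 0 < af a x} :=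
  ⟨poly a, (totalDegree_poly a).trans hD, Or.inr (by ext x; simp [eval_poly])⟩

lemma hasComplexity_HP {s D : ℕ} (hs : 2 ≤ s) (hD : 1 ≤ D) (a b : Fin 4 → ℝ) :
    HasComplexity s D (HP a b) := by
  refine ⟨2, hs, ![{x : E3 | af a x = 0}, {x : E3 | 0 < af b x}],
    fun P => P 0 ∧ ¬ P 1, ?_, ?_⟩
  · intro i
    fin_cases i
    · exact isBasic_eq hD a
    · exact isBasic_pos hD b
  · ext x
    simp [HP]

lemma hasComplexity_HP_box {s D : ℕ} (hs : 8 ≤ s) (hD : 1 ≤ D) (a b : Fin 4 → ℝ) (M : ℝ) :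
    HasComplexity s D (HP a b ∩ Box M) := by
  refine ⟨8, hs, ![{x : E3 | af a x = 0}, {x : E3 | 0 < af b x},
    {x : E3 | 0 < af ![1, 0, 0, -M] x}, {x : E3 | 0 < af ![-1, 0, 0, -M] x},
    {x : E3 | 0 < af ![0, 1, 0, -M] x}, {x : E3 | 0 < af ![0, -1, 0, -M] x},
    {x : E3 | 0 < af ![0, 0, 1, -M] x}, {x : E3 | 0 < af ![0, 0, -1, -M] x}],
    fun P => P 0 ∧ ¬ P 1 ∧ ¬ P 2 ∧ ¬ P 3 ∧ ¬ P 4 ∧ ¬ P 5 ∧ ¬ P 6 ∧ ¬ P 7, ?_, ?_⟩
  · intro i
    fin_cases i
    · exact isBasic_eq hD a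
    all_goals exact isBasic_pos hD _
  · ext x
    have e1 : af ![1, 0, 0, -M] x = x 0 - M := by simp [af]; ring
    have e2 : af ![-1, 0, 0, -M] x = - x 0 - M := by simp [af]; ring
    have e3 : af ![0, 1, 0, -M] x = x 1 - M := by simp [af]; ring
    have e4 : af ![0, -1, 0, -M] x = - x 1 - M := by simp [af]; ring
    have e5 : af ![0, 0, 1, -M] x = x 2 - M := by simp [af]; ring
    have e6 : af ![0, 0, -1, -M] x = - x 2 - M := by simp [af]; ring
    have hb : x ∈ Box M ↔ (x 0 ≤ M ∧ - x 0 ≤ M) ∧ (x 1 ≤ M ∧ - x 1 ≤ M) ∧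
        (x 2 ≤ M ∧ - x 2 ≤ M) := by
      simp only [Box, Set.mem_ofPred_eq, Fin.forall_fin_succ, abs_le]
      constructor
      · rintro ⟨h0, h1, h2, -⟩
        refine ⟨⟨h0.2, by linarith [h0.1]⟩, ⟨h1.2, ?_⟩, ⟨h2.2, ?_⟩⟩
        · have := h1.1; simpa [neg_le] using this
        · have := h2.1; simpa [neg_le] using this
      · rintro ⟨⟨a1, a2⟩, ⟨a3, a4⟩, ⟨a5, a6⟩⟩
        refine ⟨⟨by linarith, a1⟩, ⟨?_, a3⟩, ⟨?_, a5⟩, ?_⟩
        · simpa [neg_le] using a4
        · simpa [neg_le] using a6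
        · intro i; exact i.elim0
    simp only [HP, Set.mem_inter_iff, Set.mem_ofPred_eq, hb]
    simp only [Matrix.cons_val, Set.mem_ofPred_eq, e1, e2, e3, e4, e5, e6, not_lt, sub_nonpos]
    tauto

lemma continuous_af (a : Fin 4 → ℝ) : Continuous (af a) := by
  unfold af; fun_prop

lemma isClosed_HP (a b : Fin 4 → ℝ) : IsClosed (HP a b) :=
  (isClosed_eq (continuous_af a) continuous_const).inter
    (isClosed_le (continuous_af b) continuous_const)

lemma af_comb (a : Fin 4 → ℝ) (x y : E3) (u v : ℝ) (h : u + v = 1) :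
    af a (u • x + v • y) = u * af a x + v * af a y := by
  simp only [af, PiLp.add_apply, PiLp.smul_apply, smul_eq_mul]
  have : v = 1 - u := by linarith
  subst this; ring

lemma convex_HP (a b : Fin 4 → ℝ) : Convex ℝ (HP a b) := by
  intro x hx y hy u v hu hv huv
  obtain ⟨hx1, hx2⟩ := hx
  obtain ⟨hy1, hy2⟩ := hy
  refine ⟨?_, ?_⟩
  · rw [af_comb a x y u v huv, hx1, hy1]; ring
  · rw [af_comb b x y u v huv]
    have h1 := mul_nonpos_of_nonneg_of_nonpos hu hx2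
    have h2 := mul_nonpos_of_nonneg_of_nonpos hv hy2
    linarith

lemma isCompact_Box (M : ℝ) : IsCompact (Box M) := by
  have h : Box M = (EuclideanSpace.equiv (Fin 3) ℝ) ⁻¹' (Set.Icc (fun _ => -M) (fun _ => M)) := by
    ext x
    simp only [Box, Set.mem_ofPred_eq, Set.mem_preimage, Set.mem_Icc, Pi.le_def, abs_le]
    constructor
    · intro h; exact ⟨fun i => (h i).1, fun i => (h i).2⟩
    · intro h i; exact ⟨h.1 i, h.2 i⟩
  rw [h]
  exact (EuclideanSpace.equiv (Fin 3) ℝ).toHomeomorph.isCompact_preimage.mpr isCompact_Icc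

lemma convex_Box (M : ℝ) : Convex ℝ (Box M) := by
  intro x hx y hy u v hu hv huv i
  have h1 := abs_le.mp (hx i)
  have h2 := abs_le.mp (hy i)
  simp only [PiLp.add_apply, PiLp.smul_apply, smul_eq_mul]
  rw [abs_le]
  have hv' : v = 1 - u := by linarith
  constructor
  · nlinarith [mul_nonneg hu (by linarith [h1.1] : (0:ℝ) ≤ x i + M),
      mul_nonneg hv (by linarith [h2.1] : (0:ℝ) ≤ y i + M)]
  · nlinarith [mul_nonneg hu (by linarith [h1.2] : (0:ℝ) ≤ M - x i),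
      mul_nonneg hv (by linarith [h2.2] : (0:ℝ) ≤ M - y i)]

/-! ### Real inequalities -/

lemma real_forbid (σ s t δ p c X1 X2 : ℝ) (hσ0 : 0 ≤ σ) (hσ1 : σ ≤ 1) (hs0 : 0 ≤ s)
    (hs1 : s ≤ 1) (hδ : 0 < δ)
    (hB : p + (t + 2 * σ) * σ ≤ σ * (c + s * σ) + σ ^ 2 / 2)
    (hX1 : X1 = 2 + (c + s * X1 - t) / 4)
    (hR1 : (4 * (c + s * X1 - t) + 2 * t) + t * (c + s * X1 - t) / 4 + δ ≤
      p + (t + 2 * σ) * X1)
    (hX2 : X2 = -2 + (c + s * X2 - t) / 4)
    (hR2 : -(4 * (c + s * X2 - t) + 2 * t) + t * (c + s * X2 - t) / 4 + δ ≤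
      p + (t + 2 * σ) * X2) : False := by
  obtain ⟨u1, hu1⟩ : ∃ u1, u1 = c + s * X1 - t := ⟨_, rfl⟩
  obtain ⟨u2, hu2⟩ : ∃ u2, u2 = c + s * X2 - t := ⟨_, rfl⟩
  rw [← hu1] at hX1 hR1
  rw [← hu2] at hX2 hR2
  have hc1 : c = t + u1 - s * (2 + u1 / 4) := by rw [← hX1]; linarith
  have hc2 : c = t + u2 - s * (-2 + u2 / 4) := by rw [← hX2]; linarith
  have H1 : (u1 - σ) * (4 - 3 * σ / 2) + s * σ * (2 - σ + u1 / 4) + δ ≤ 0 := by
    rw [hX1] at hR1
    have hB' := hB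
    rw [hc1] at hB'
    nlinarith [hB', hR1]
  have H2 : -(u2 - σ) * (4 + 3 * σ / 2) + s * σ * (-2 - σ + u2 / 4) + δ ≤ 0 := by
    rw [hX2] at hR2
    have hB' := hB
    rw [hc2] at hB'
    nlinarith [hB', hR2]
  have hsσ : 0 ≤ s * σ := mul_nonneg hs0 hσ0
  have hlt : u1 < σ := by
    by_contra h
    push Not at h
    have e1 : 0 ≤ (u1 - σ) * (4 - 3 * σ / 2) := mul_nonneg (by linarith) (by linarith)
    have e2 : 0 ≤ s * σ * (2 - σ + u1 / 4) := mul_nonneg hsσ (by linarith)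
    linarith
  obtain ⟨g, hg⟩ : ∃ g, g = u1 - u2 := ⟨_, rfl⟩
  have hg1 : g * (1 - s / 4) = 4 * s := by
    have : t + u1 - s * (2 + u1 / 4) = t + u2 - s * (-2 + u2 / 4) := hc1.symm.trans hc2
    rw [hg]; linarith
  have hg0 : 0 ≤ g := by
    by_contra h
    push Not at h
    have : g * (1 - s / 4) < 0 := mul_neg_of_neg_of_pos h (by linarith)
    linarith
  have hg4 : 4 * s ≤ g := by nlinarith [mul_nonneg hg0 hs0]
  obtain ⟨v, hv⟩ : ∃ v, v = σ - u2 := ⟨_, rfl⟩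
  have hvg : 4 * s < v := by linarith
  have hv0 : 0 < v := by linarith
  have hu2' : u2 = σ - v := by linarith
  rw [hu2'] at H2
  have e1 : s * σ * (2 + 3 * σ / 4 + v / 4) ≤ s * (11 / 4 + v / 4) := by
    have : σ * (2 + 3 * σ / 4 + v / 4) ≤ 1 * (11 / 4 + v / 4) := by
      apply mul_le_mul hσ1 (by linarith) (by positivity) (by norm_num)
    calc s * σ * (2 + 3 * σ / 4 + v / 4) = s * (σ * (2 + 3 * σ / 4 + v / 4)) := by ring
      _ ≤ s * (1 * (11 / 4 + v / 4)) := mul_le_mul_of_nonneg_left this hs0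
      _ = s * (11 / 4 + v / 4) := by ring
  have e2 : s * (11 / 4 + v / 4) ≤ 11 / 4 * s + v / 4 := by
    have : s * (v / 4) ≤ v / 4 := mul_le_of_le_one_left (by linarith) hs1
    linarith
  have e3 : 4 * v ≤ v * (4 + 3 * σ / 2) := by
    have : 0 ≤ v * σ := mul_nonneg hv0.le hσ0
    linarith
  have e4 : -(σ - v - σ) * (4 + 3 * σ / 2) + s * σ * (-2 - σ + (σ - v) / 4) + δ =
    v * (4 + 3 * σ / 2) - s * σ * (2 + 3 * σ / 4 + v / 4) + δ := by ring
  rw [e4] at H2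
  linarith

/-- existence for the blue half-planes -/
lemma real_B (N a σ s q : ℝ) (hN : 1 ≤ N) (hq : q = 1 / (8 * N ^ 2))
    (hs : 0 ≤ s) (hσ : 1 / (2 * N) ≤ |σ - a|) (T : ℝ) :
    (-a ^ 2 / 2 + q) + (T + 2 * a) * σ ≤ σ * ((T + a) + s * σ) + σ ^ 2 / 2 := by
  have hN0 : 0 < N := by linarith
  have h1 : (1 / (2 * N)) ^ 2 ≤ (σ - a) ^ 2 := by
    rw [← sq_abs (σ - a)]
    exact pow_le_pow_left₀ (by positivity) hσ 2
  have h2 : (1 / (2 * N)) ^ 2 = 2 * q := by rw [hq]; field_simp; ring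
  have h3 : 0 ≤ s * σ ^ 2 := by positivity
  nlinarith

/-- existence for the red half-planes; `e = ±1` and `Δ` is the difference of the times. -/
lemma real_R (N a s q δ e T Δ : ℝ) (hN : 1 ≤ N) (hq : q = 1 / (8 * N ^ 2))
    (hδ : δ = 1 / (16 * N ^ 2)) (ha0 : 0 ≤ a) (ha1 : a ≤ 1) (hs0 : 0 ≤ s)
    (hs1 : s ≤ 1 / (1000 * N ^ 2)) (he : |e| = 1) (hΔ : Δ = 0 ∨ 17 ≤ |Δ|)
    (hΔN : |Δ| ≤ 17 * N) :
    ∃ X : ℝ, X = 2 * e + ((T + a) + s * X - (T + Δ)) / 4 ∧
      e * (4 * ((T + a) + s * X - (T + Δ)) + 2 * (T + Δ)) +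
        (T + Δ) * ((T + a) + s * X - (T + Δ)) / 4 + δ ≤
        (-a ^ 2 / 2 + q) + (T + 2 * a) * X := by
  have hN0 : 0 < N := by linarith
  have hN2 : 1 ≤ N ^ 2 := by nlinarith
  have hs2 : s ≤ 1 / 1000 := by
    refine hs1.trans ?_
    apply one_div_le_one_div_of_le (by norm_num); linarith
  have h4 : 0 < 1 - s / 4 := by linarith
  obtain ⟨X, hX⟩ : ∃ X, X = (2 * e + (a - Δ) / 4) / (1 - s / 4) := ⟨_, rfl⟩
  have hX1 : X * (1 - s / 4) = 2 * e + (a - Δ) / 4 := by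
    rw [hX, div_mul_cancel₀ _ h4.ne']
  have hX2 : X = 2 * e + (a - Δ + s * X) / 4 := by linarith
  obtain ⟨η, hη⟩ : ∃ η, η = s * X := ⟨_, rfl⟩
  have hXη : X = 2 * e + (a - Δ + η) / 4 := by rw [hη]; exact hX2
  refine ⟨X, ?_, ?_⟩
  · have : (T + a) + s * X - (T + Δ) = a - Δ + s * X := by ring
    rw [this]; exact hX2
  -- the inequality in terms of η
  have key : (-a ^ 2 / 2 + q) + (T + 2 * a) * X -
      (e * (4 * ((T + a) + s * X - (T + Δ)) + 2 * (T + Δ)) +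
        (T + Δ) * ((T + a) + s * X - (T + Δ)) / 4 + δ) =
      q - δ + Δ * (Δ - 3 * a + 8 * e) / 4 + η * ((2 * a - Δ) / 4 - 4 * e) := by
    rw [← hη, hXη]; ring
  have hXabs : |X| ≤ (1001 / 1000) * (9 / 4 + |Δ| / 4) := by
    have h5 : |X| * (1 - s / 4) ≤ 9 / 4 + |Δ| / 4 := by
      rw [← abs_of_pos h4, ← abs_mul, hX1]
      calc |2 * e + (a - Δ) / 4| ≤ |2 * e| + |(a - Δ) / 4| := abs_add_le _ _
        _ ≤ 2 + (1 + |Δ|) / 4 := by
            have e1 : |2 * e| = 2 := by rw [abs_mul, he]; norm_num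
            have e2 : |(a - Δ) / 4| ≤ (1 + |Δ|) / 4 := by
              rw [abs_div]
              have : |a - Δ| ≤ 1 + |Δ| := by
                calc |a - Δ| ≤ |a| + |Δ| := abs_sub _ _
                  _ ≤ 1 + |Δ| := by rw [abs_of_nonneg ha0]; linarith
              have h44 : |(4:ℝ)| = 4 := by norm_num
              rw [h44]; linarith
            linarith
        _ = 9 / 4 + |Δ| / 4 := by ring
    have h6 : |X| * (3999 / 4000) ≤ |X| * (1 - s / 4) := by
      apply mul_le_mul_of_nonneg_left _ (abs_nonneg X); linarith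
    have h7 : 0 ≤ |Δ| := abs_nonneg _
    nlinarith [abs_nonneg X]
  have hηabs : |η| = s * |X| := by rw [hη, abs_mul, abs_of_nonneg hs0]
  have hqδ : q - δ = 1 / (16 * N ^ 2) := by rw [hq, hδ]; field_simp; norm_num
  have hfac : |η * ((2 * a - Δ) / 4 - 4 * e)| ≤ |η| * (9 / 2 + |Δ| / 4) := by
    rw [abs_mul]
    apply mul_le_mul_of_nonneg_left _ (abs_nonneg _)
    calc |(2 * a - Δ) / 4 - 4 * e| ≤ |(2 * a - Δ) / 4| + |4 * e| := abs_sub _ _
      _ ≤ (2 + |Δ|) / 4 + 4 := by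
          have e1 : |4 * e| = 4 := by rw [abs_mul, he]; norm_num
          have e2 : |(2 * a - Δ) / 4| ≤ (2 + |Δ|) / 4 := by
            rw [abs_div]
            have : |2 * a - Δ| ≤ 2 + |Δ| := by
              calc |2 * a - Δ| ≤ |2 * a| + |Δ| := abs_sub _ _
                _ ≤ 2 + |Δ| := by rw [abs_of_nonneg (by linarith : 0 ≤ 2 * a)]; linarith
            have h44 : |(4:ℝ)| = 4 := by norm_num
            rw [h44]; linarith
          linarith
      _ = 9 / 2 + |Δ| / 4 := by ring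
  have hneg := neg_abs_le (η * ((2 * a - Δ) / 4 - 4 * e))
  suffices h : 0 ≤ q - δ + Δ * (Δ - 3 * a + 8 * e) / 4 + η * ((2 * a - Δ) / 4 - 4 * e) by
    linarith
  rcases hΔ with h0 | h17
  · subst h0
    simp only [abs_zero, zero_div, add_zero] at hXabs hfac
    have h8 : |η| ≤ (1 / (1000 * N ^ 2)) * ((1001 / 1000) * (9 / 4)) := by
      rw [hηabs]
      exact mul_le_mul hs1 hXabs (abs_nonneg _) (by positivity)
    have h9 : |η| * (9 / 2) ≤ 1 / (16 * N ^ 2) := by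
      calc |η| * (9 / 2) ≤ (1 / (1000 * N ^ 2)) * ((1001 / 1000) * (9 / 4)) * (9 / 2) := by
            apply mul_le_mul_of_nonneg_right h8 (by norm_num)
        _ = (1 / N ^ 2) * ((1 / 1000) * ((1001 / 1000) * (9 / 4)) * (9 / 2)) := by
            field_simp
        _ ≤ (1 / N ^ 2) * (1 / 16) := by
            apply mul_le_mul_of_nonneg_left (by norm_num) (by positivity)
        _ = 1 / (16 * N ^ 2) := by field_simp
    rw [hqδ]
    have : (0:ℝ) * (0 - 3 * a + 8 * e) / 4 = 0 := by ring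
    rw [this]
    linarith
  · have h8 : |η| ≤ 1 / 100 := by
      rw [hηabs]
      have h9 : |X| ≤ 7 * N := by
        calc |X| ≤ (1001 / 1000) * (9 / 4 + |Δ| / 4) := hXabs
          _ ≤ (1001 / 1000) * (9 / 4 + 17 * N / 4) := by linarith
          _ ≤ 7 * N := by linarith
      calc s * |X| ≤ (1 / (1000 * N ^ 2)) * (7 * N) :=
            mul_le_mul hs1 h9 (abs_nonneg _) (by positivity)
        _ = (7 / 1000) * (1 / N) := by field_simp
        _ ≤ (7 / 1000) * 1 := by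
            apply mul_le_mul_of_nonneg_left _ (by norm_num)
            rw [div_le_one hN0]; exact hN
        _ ≤ 1 / 100 := by norm_num
    have h10 : |Δ| * (|Δ| - 11) ≤ Δ * (Δ - 3 * a + 8 * e) := by
      have e1 : Δ * (Δ - 3 * a + 8 * e) = |Δ| ^ 2 + Δ * (8 * e - 3 * a) := by
        rw [sq_abs]; ring
      have e2 : |Δ * (8 * e - 3 * a)| ≤ |Δ| * 11 := by
        rw [abs_mul]
        apply mul_le_mul_of_nonneg_left _ (abs_nonneg _)
        calc |8 * e - 3 * a| ≤ |8 * e| + |3 * a| := abs_sub _ _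
          _ ≤ 11 := by
            rw [abs_mul, he, abs_of_nonneg (by linarith : 0 ≤ 3 * a)]
            have : |(8:ℝ)| = 8 := by norm_num
            rw [this]; linarith
      have e3 := neg_abs_le (Δ * (8 * e - 3 * a))
      rw [e1]; nlinarith
    have h11 : |η| * (9 / 2 + |Δ| / 4) ≤ (1 / 100) * (9 / 2 + |Δ| / 4) := by
      apply mul_le_mul_of_nonneg_right h8
      have := abs_nonneg Δ
      linarith
    have h12 : (0:ℝ) ≤ 1 / (16 * N ^ 2) := by positivity
    rw [hqδ]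
    nlinarith [abs_nonneg Δ]

/-! ### The family -/

/-- Sign of a Boolean. -/
def sgn (b : Bool) : ℝ := if b then 1 else -1

/-- 0/1 value of a Boolean. -/
def bit (b : Bool) : ℝ := if b then 1 else 0

lemma abs_sgn (b : Bool) : |sgn b| = 1 := by cases b <;> simp [sgn]

/-- Index type of the family. -/
abbrev Idx (n r : ℕ) : Type :=
  Fin (n + 1) ⊕ (Fin n × Bool) ⊕ (Fin (n + 1) × Bool) ⊕ Fin r

/-- Thickness parameter. -/
noncomputable def kap (n : ℕ) : ℝ := 1 / (1000 * (n : ℝ) ^ 3)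

/-- Gap parameter. -/
noncomputable def dl (n : ℕ) : ℝ := 1 / (16 * (n : ℝ) ^ 2)

/-- Equality parts. -/
noncomputable def ca (n r : ℕ) : Idx n r → Fin 4 → ℝ
  | Sum.inl j => ![1, 0, 0, -((j : ℕ) / (n : ℝ))]
  | Sum.inr (Sum.inl (i, b)) => ![1, 0, -1 / 4, -2 * sgn b + 17 * ((i : ℕ) : ℝ) / 4]
  | Sum.inr (Sum.inr (Sum.inl (k, b))) => ![-(((k : ℕ) : ℝ) * kap n), 0, 1, -bit b]
  | Sum.inr (Sum.inr (Sum.inr l)) => ![1, 0, 0, -(5 + ((l : ℕ) : ℝ))]

/-- Inequality parts. -/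
noncomputable def cb (n r : ℕ) : Idx n r → Fin 4 → ℝ
  | Sum.inl j => ![0, 1, -((j : ℕ) / (n : ℝ)), -((j : ℕ) / (n : ℝ)) ^ 2 / 2]
  | Sum.inr (Sum.inl (i, b)) => ![0, -1, 4 * sgn b + 17 * ((i : ℕ) : ℝ) / 4,
      -2 * sgn b * (17 * ((i : ℕ) : ℝ)) - (17 * ((i : ℕ) : ℝ)) ^ 2 / 4 + dl n]
  | Sum.inr (Sum.inr (Sum.inl _)) => ![0, 0, 0, 0]
  | Sum.inr (Sum.inr (Sum.inr _)) => ![0, 0, 0, 0]

/-- The family of half-planes and planes. -/
noncomputable def G (n r : ℕ) (x : Idx n r) : Set E3 := HP (ca n r x) (cb n r x)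

lemma mem_GB (n r : ℕ) (j : Fin (n + 1)) (x : E3) :
    x ∈ G n r (Sum.inl j) ↔ x 0 = (j : ℕ) / (n : ℝ) ∧
      x 1 ≤ (j : ℕ) / (n : ℝ) * x 2 + ((j : ℕ) / (n : ℝ)) ^ 2 / 2 := by
  simp only [G, HP, ca, cb, af, Set.mem_ofPred_eq, Matrix.cons_val]
  constructor
  · rintro ⟨h1, h2⟩; exact ⟨by linarith, by linarith⟩
  · rintro ⟨h1, h2⟩; exact ⟨by linarith, by linarith⟩

lemma mem_GR (n r : ℕ) (i : Fin n) (b : Bool) (x : E3) :
    x ∈ G n r (Sum.inr (Sum.inl (i, b))) ↔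
      x 0 = 2 * sgn b + (x 2 - 17 * ((i : ℕ) : ℝ)) / 4 ∧
      sgn b * (4 * (x 2 - 17 * ((i : ℕ) : ℝ)) + 2 * (17 * ((i : ℕ) : ℝ))) +
        (17 * ((i : ℕ) : ℝ)) * (x 2 - 17 * ((i : ℕ) : ℝ)) / 4 + dl n ≤ x 1 := by
  simp only [G, HP, ca, cb, af, Set.mem_ofPred_eq, Matrix.cons_val]
  constructor
  · rintro ⟨h1, h2⟩; exact ⟨by linarith, by linarith⟩
  · rintro ⟨h1, h2⟩; exact ⟨by linarith, by linarith⟩

lemma mem_GZ (n r : ℕ) (k : Fin (n + 1)) (b : Bool) (x : E3) :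
    x ∈ G n r (Sum.inr (Sum.inr (Sum.inl (k, b)))) ↔
      x 2 = ((k : ℕ) : ℝ) * kap n * x 0 + bit b := by
  simp only [G, HP, ca, cb, af, Set.mem_ofPred_eq, Matrix.cons_val]
  constructor
  · rintro ⟨h1, h2⟩; linarith
  · intro h1; exact ⟨by linarith, by linarith⟩

lemma mem_GW (n r : ℕ) (l : Fin r) (x : E3) :
    x ∈ G n r (Sum.inr (Sum.inr (Sum.inr l))) ↔ x 0 = 5 + ((l : ℕ) : ℝ) := by
  simp only [G, HP, ca, cb, af, Set.mem_ofPred_eq, Matrix.cons_val]
  constructor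
  · rintro ⟨h1, h2⟩; linarith
  · intro h1; exact ⟨by linarith, by linarith⟩

/-- Points on a line, in terms of slopes. -/
lemma coords {q : E3 × {d : E3 // d ≠ 0}} {z : E3} (hz : z ∈ (lineThrough q).1) {y s : ℝ}
    (h1 : q.2.1 1 = y * q.2.1 0) (h2 : q.2.1 2 = s * q.2.1 0) :
    z 1 = (q.1 1 - y * q.1 0) + y * z 0 ∧ z 2 = (q.1 2 - s * q.1 0) + s * z 0 := by
  rw [mem_lineThrough] at hz
  obtain ⟨a, rfl⟩ := hz
  simp only [PiLp.add_apply, PiLp.smul_apply, smul_eq_mul, h1, h2]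
  constructor <;> ring

lemma forbidZ {n r : ℕ} {q : E3 × {d : E3 // d ≠ 0}} (hT : lineThrough q ∈ transversals (G n r))
    (k : Fin (n + 1)) (h : q.2.1 2 = ((k : ℕ) : ℝ) * kap n * q.2.1 0) : False := by
  obtain ⟨z, hz, hz'⟩ := hT (Sum.inr (Sum.inr (Sum.inl (k, false))))
  obtain ⟨w, hw, hw'⟩ := hT (Sum.inr (Sum.inr (Sum.inl (k, true))))
  rw [mem_GZ] at hz' hw'
  simp only [bit] at hz' hw'
  rw [SetLike.mem_coe, mem_lineThrough] at hz hw
  obtain ⟨a, rfl⟩ := hz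
  obtain ⟨b, rfl⟩ := hw
  simp only [PiLp.add_apply, PiLp.smul_apply, smul_eq_mul, h] at hz' hw'
  simp at hz' hw'
  linarith

lemma dl_pos {n : ℕ} (hn : 1 ≤ n) : 0 < dl n := by
  have : (0:ℝ) < n := by exact_mod_cast hn
  unfold dl; positivity

lemma kap_pos {n : ℕ} (hn : 1 ≤ n) : 0 < kap n := by
  have : (0:ℝ) < n := by exact_mod_cast hn
  unfold kap; positivity

lemma forbidBR {n r : ℕ} (hn : 1 ≤ n) {q : E3 × {d : E3 // d ≠ 0}}
    (hT : lineThrough q ∈ transversals (G n r)) (i : Fin n) (j : Fin (n + 1)) (s : ℝ)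
    (hs0 : 0 ≤ s) (hs1 : s ≤ 1)
    (h1 : q.2.1 1 = (17 * ((i : ℕ) : ℝ) + 2 * ((j : ℕ) / (n : ℝ))) * q.2.1 0)
    (h2 : q.2.1 2 = s * q.2.1 0) : False := by
  have hN : (0:ℝ) < n := by exact_mod_cast hn
  obtain ⟨z, hz, hz'⟩ := hT (Sum.inl j)
  obtain ⟨v, hv, hv'⟩ := hT (Sum.inr (Sum.inl (i, true)))
  obtain ⟨w, hw, hw'⟩ := hT (Sum.inr (Sum.inl (i, false)))
  rw [mem_GB] at hz'
  rw [mem_GR] at hv' hw'
  obtain ⟨hz1, hz2⟩ := coords hz h1 h2
  obtain ⟨hv1, hv2⟩ := coords hv h1 h2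
  obtain ⟨hw1, hw2⟩ := coords hw h1 h2
  have e1 : sgn true = 1 := rfl
  have e2 : sgn false = -1 := rfl
  rw [e1] at hv'
  rw [e2] at hw'
  refine real_forbid ((j : ℕ) / (n : ℝ)) s (17 * ((i : ℕ) : ℝ)) (dl n)
    (q.1 1 - (17 * ((i : ℕ) : ℝ) + 2 * ((j : ℕ) / (n : ℝ))) * q.1 0)
    (q.1 2 - s * q.1 0) (v 0) (w 0) (by positivity) ?_ hs0 hs1 (dl_pos hn) ?_ ?_ ?_ ?_ ?_
  · rw [div_le_one hN]
    have : (j : ℕ) ≤ n := Nat.lt_succ_iff.mp j.2
    exact_mod_cast this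
  · obtain ⟨a1, a2⟩ := hz'
    rw [hz1, hz2, a1] at a2
    exact a2
  · obtain ⟨a1, a2⟩ := hv'
    rw [hv2] at a1
    linarith
  · obtain ⟨a1, a2⟩ := hv'
    rw [hv1, hv2] at a2
    linarith
  · obtain ⟨a1, a2⟩ := hw'
    rw [hw2] at a1
    linarith
  · obtain ⟨a1, a2⟩ := hw'
    rw [hw1, hw2] at a2
    linarith

/-- centres of the cells -/
noncomputable def cy (n : ℕ) (i j : Fin n) : ℝ :=
  17 * ((i : ℕ) : ℝ) + (2 * ((j : ℕ) : ℝ) + 1) / (n : ℝ)

noncomputable def cs (n : ℕ) (k : Fin n) : ℝ := (((k : ℕ) : ℝ) + 1 / 2) * kap n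

lemma kap_le {n : ℕ} (hn : 1 ≤ n) (k : ℕ) (hk : k ≤ n) :
    (k : ℝ) * kap n ≤ 1 / (1000 * (n : ℝ) ^ 2) := by
  have hN : (0:ℝ) < n := by exact_mod_cast hn
  calc (k : ℝ) * kap n ≤ n * kap n := by
        apply mul_le_mul_of_nonneg_right _ (kap_pos hn).le
        exact_mod_cast hk
    _ = 1 / (1000 * (n : ℝ) ^ 2) := by unfold kap; field_simp

lemma inv_sq_le_one {n : ℕ} (hn : 1 ≤ n) : 1 / (1000 * (n : ℝ) ^ 2) ≤ 1 := by
  have hN : (1:ℝ) ≤ n := by exact_mod_cast hn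
  rw [div_le_one (by positivity)]
  nlinarith

lemma cell_forbid {n r : ℕ} (hn : 1 ≤ n) (i j k : Fin n) (L : Line)
    (hT : L ∈ transversals (G n r)) (hK : L ∈ cellK (cy n i j) (1 / n) (cs n k) (kap n / 2)) :
    L ∈ cellO (cy n i j) (1 / n) (cs n k) (kap n / 2) := by
  have hN : (0:ℝ) < n := by exact_mod_cast hn
  have hκ := kap_pos hn
  obtain ⟨q, rfl⟩ := lineThrough_surjective L
  rw [mem_cellK_iff] at hK
  rw [mem_cellO_iff]
  obtain ⟨hK1, hK2⟩ := hK
  have hd0 : q.2.1 0 ≠ 0 := by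
    intro h
    rw [h] at hK1 hK2
    simp only [mul_zero, sub_zero, abs_zero] at hK1 hK2
    have e1 : q.2.1 1 = 0 := abs_eq_zero.mp (le_antisymm hK1 (abs_nonneg _))
    have e2 : q.2.1 2 = 0 := abs_eq_zero.mp (le_antisymm hK2 (abs_nonneg _))
    apply q.2.2
    ext i
    fin_cases i
    · simpa using h
    · simpa using e1
    · simpa using e2
  obtain ⟨y, hy⟩ : ∃ y, y = q.2.1 1 / q.2.1 0 := ⟨_, rfl⟩
  obtain ⟨s, hs⟩ : ∃ s, s = q.2.1 2 / q.2.1 0 := ⟨_, rfl⟩
  have h1 : q.2.1 1 = y * q.2.1 0 := by rw [hy, div_mul_cancel₀ _ hd0]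
  have h2 : q.2.1 2 = s * q.2.1 0 := by rw [hs, div_mul_cancel₀ _ hd0]
  have habs : 0 < |q.2.1 0| := abs_pos.mpr hd0
  have hK1' : |y - cy n i j| ≤ 1 / n := by
    have : q.2.1 1 - cy n i j * q.2.1 0 = (y - cy n i j) * q.2.1 0 := by rw [h1]; ring
    rw [this, abs_mul] at hK1
    exact le_of_mul_le_mul_right hK1 habs
  have hK2' : |s - cs n k| ≤ kap n / 2 := by
    have : q.2.1 2 - cs n k * q.2.1 0 = (s - cs n k) * q.2.1 0 := by rw [h2]; ring
    rw [this, abs_mul] at hK2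
    exact le_of_mul_le_mul_right hK2 habs
  rw [abs_le] at hK1' hK2'
  have hsc : cs n k = ((k : ℕ) : ℝ) * kap n + kap n / 2 := by unfold cs; ring
  have hslo : ((k : ℕ) : ℝ) * kap n ≤ s := by rw [hsc] at hK2'; linarith [hK2'.1]
  have hshi : s ≤ (((k : ℕ) : ℝ) + 1) * kap n := by
    rw [hsc] at hK2'; linarith [hK2'.2]
  have hs0 : 0 ≤ s := le_trans (by positivity) hslo
  have hs1 : s ≤ 1 := by
    have e1 := kap_le hn (k + 1) k.2
    push_cast at e1
    exact hshi.trans (e1.trans (inv_sq_le_one hn))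
  -- strictness in s
  have hs_ne1 : s ≠ ((k : ℕ) : ℝ) * kap n := by
    intro h
    rw [h] at h2
    exact forbidZ hT k.castSucc (by simpa using h2)
  have hs_ne2 : s ≠ (((k : ℕ) : ℝ) + 1) * kap n := by
    intro h
    rw [h] at h2
    exact forbidZ hT k.succ (by simpa using h2)
  have hy_ne1 : y ≠ cy n i j - 1 / n := by
    intro h
    refine forbidBR hn hT i j.castSucc s hs0 hs1 ?_ h2
    rw [h1, h]
    unfold cy
    simp only [Fin.val_castSucc]
    ring
  have hy_ne2 : y ≠ cy n i j + 1 / n := by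
    intro h
    refine forbidBR hn hT i j.succ s hs0 hs1 ?_ h2
    rw [h1, h]
    unfold cy
    simp only [Fin.val_succ]
    push_cast
    ring
  constructor
  · have : q.2.1 1 - cy n i j * q.2.1 0 = (y - cy n i j) * q.2.1 0 := by rw [h1]; ring
    rw [this, abs_mul]
    apply mul_lt_mul_of_pos_right _ habs
    rw [abs_lt]
    constructor
    · rcases lt_or_eq_of_le hK1'.1 with h | h
      · exact h
      · exfalso; apply hy_ne1; linarith
    · rcases lt_or_eq_of_le hK1'.2 with h | h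
      · exact h
      · exfalso; apply hy_ne2; linarith
  · have : q.2.1 2 - cs n k * q.2.1 0 = (s - cs n k) * q.2.1 0 := by rw [h2]; ring
    rw [this, abs_mul]
    apply mul_lt_mul_of_pos_right _ habs
    rw [abs_lt]
    constructor
    · rcases lt_or_eq_of_le hslo with h | h
      · rw [hsc]; linarith
      · exfalso; apply hs_ne1; linarith
    · rcases lt_or_eq_of_le hshi with h | h
      · rw [hsc]; linarith
      · exfalso; apply hs_ne2; linarith

/-! ### Representative lines -/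

/-- parameter of the cell -/
noncomputable def aa (n : ℕ) (j : Fin n) : ℝ := (((j : ℕ) : ℝ) + 1 / 2) / (n : ℝ)

/-- intercept of the representative line -/
noncomputable def pp (n : ℕ) (j : Fin n) : ℝ := -(aa n j) ^ 2 / 2 + 1 / (8 * (n : ℝ) ^ 2)

/-- representative line of a cell -/
noncomputable def rep (n : ℕ) (i j k : Fin n) : Line :=
  lineThrough (!₂[0, pp n j, 17 * ((i : ℕ) : ℝ) + aa n j],
    ⟨!₂[1, cy n i j, cs n k], by
      intro h
      have := congrArg (fun x : E3 => x 0) h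
      simp at this⟩)

lemma pt_mem_rep (n : ℕ) (i j k : Fin n) (X : ℝ) :
    (!₂[X, pp n j + cy n i j * X, (17 * ((i : ℕ) : ℝ) + aa n j) + cs n k * X] : E3) ∈
      (rep n i j k).1 := by
  unfold rep
  rw [mem_lineThrough]
  refine ⟨X, ?_⟩
  ext l
  fin_cases l
  · simp
  · simp; ring
  · simp; ring

lemma cy_eq {n : ℕ} (hn : 1 ≤ n) (i j : Fin n) :
    cy n i j = 17 * ((i : ℕ) : ℝ) + 2 * aa n j := by
  have hN : (n:ℝ) ≠ 0 := by exact_mod_cast (by omega : n ≠ 0)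
  unfold cy aa
  field_simp

lemma half_le_abs (m : ℤ) : (1 / 2 : ℝ) ≤ |(m : ℝ) - 1 / 2| := by
  rcases le_or_gt m 0 with h | h
  · have : (m : ℝ) ≤ 0 := by exact_mod_cast h
    rw [abs_of_neg (by linarith)]; linarith
  · have : (1 : ℝ) ≤ m := by exact_mod_cast h
    rw [abs_of_pos (by linarith)]; linarith

lemma rep_hits {n : ℕ} (hn : 1 ≤ n) (r : ℕ) (i j k : Fin n) (x : Idx n r) :
    (((rep n i j k).1 : Set E3) ∩ G n r x).Nonempty := by
  have hN : (0:ℝ) < n := by exact_mod_cast hn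
  have hN1 : (1:ℝ) ≤ n := by exact_mod_cast hn
  have hκ := kap_pos hn
  have hs0 : 0 ≤ cs n k := by unfold cs; positivity
  have hs1 : cs n k ≤ 1 / (1000 * (n : ℝ) ^ 2) := by
    have e1 := kap_le hn (k + 1) k.2
    push_cast at e1
    refine le_trans ?_ e1
    unfold cs
    apply mul_le_mul_of_nonneg_right _ hκ.le
    linarith
  have ha0 : 0 ≤ aa n j := by unfold aa; positivity
  have ha1 : aa n j ≤ 1 := by
    unfold aa
    rw [div_le_one hN]
    have : ((j : ℕ) : ℝ) + 1 ≤ n := by exact_mod_cast j.2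
    linarith
  rcases x with j' | ⟨i', b⟩ | ⟨k', b⟩ | l
  · -- blue
    refine ⟨_, pt_mem_rep n i j k ((j' : ℕ) / (n : ℝ)), ?_⟩
    rw [mem_GB]
    refine ⟨by simp, ?_⟩
    have hσ : 1 / (2 * (n : ℝ)) ≤ |((j' : ℕ) : ℝ) / (n : ℝ) - aa n j| := by
      have e1 : ((j' : ℕ) : ℝ) / (n : ℝ) - aa n j =
          ((((j' : ℕ) : ℤ) - ((j : ℕ) : ℤ) : ℤ) - 1 / 2 : ℝ) / n := by
        unfold aa; push_cast; ring
      rw [e1, abs_div, abs_of_pos hN]
      have := half_le_abs (((j' : ℕ) : ℤ) - ((j : ℕ) : ℤ))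
      calc 1 / (2 * (n : ℝ)) = (1 / 2) / n := by field_simp
        _ ≤ _ := div_le_div_of_nonneg_right this hN.le
    have := real_B (n : ℝ) (aa n j) (((j' : ℕ) : ℝ) / (n : ℝ)) (cs n k)
      (1 / (8 * (n : ℝ) ^ 2)) hN1 rfl hs0 hσ (17 * ((i : ℕ) : ℝ))
    simp only [Matrix.cons_val]
    rw [cy_eq hn]
    unfold pp
    linarith
  · -- red
    have hΔ : (17 * ((i' : ℕ) : ℝ) - 17 * ((i : ℕ) : ℝ)) = 0 ∨
        17 ≤ |17 * ((i' : ℕ) : ℝ) - 17 * ((i : ℕ) : ℝ)| := by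
      rcases eq_or_ne i' i with h | h
      · left; rw [h]; ring
      · right
        have e1 : (1 : ℤ) ≤ |((i' : ℕ) : ℤ) - ((i : ℕ) : ℤ)| := by
          apply Int.one_le_abs
          intro h'
          apply h
          apply Fin.ext
          omega
        have e2 : (1 : ℝ) ≤ |((i' : ℕ) : ℝ) - ((i : ℕ) : ℝ)| := by exact_mod_cast e1
        have e3 : 17 * ((i' : ℕ) : ℝ) - 17 * ((i : ℕ) : ℝ) =
          17 * (((i' : ℕ) : ℝ) - ((i : ℕ) : ℝ)) := by ring
        rw [e3, abs_mul]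
        have : |(17:ℝ)| = 17 := by norm_num
        rw [this]; linarith
    have hΔN : |17 * ((i' : ℕ) : ℝ) - 17 * ((i : ℕ) : ℝ)| ≤ 17 * (n : ℝ) := by
      have e1 : ((i' : ℕ) : ℝ) ≤ n := by exact_mod_cast i'.2.le
      have e2 : ((i : ℕ) : ℝ) ≤ n := by exact_mod_cast i.2.le
      have e3 : (0:ℝ) ≤ ((i' : ℕ) : ℝ) := by positivity
      have e4 : (0:ℝ) ≤ ((i : ℕ) : ℝ) := by positivity
      rw [abs_le]; constructor <;> linarith
    obtain ⟨X, hX1, hX2⟩ := real_R (n : ℝ) (aa n j) (cs n k) (1 / (8 * (n : ℝ) ^ 2)) (dl n)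
      (sgn b) (17 * ((i : ℕ) : ℝ)) (17 * ((i' : ℕ) : ℝ) - 17 * ((i : ℕ) : ℝ)) hN1 rfl rfl
      ha0 ha1 hs0 hs1 (abs_sgn b) hΔ hΔN
    refine ⟨_, pt_mem_rep n i j k X, ?_⟩
    rw [mem_GR]
    have e5 : 17 * ((i : ℕ) : ℝ) + (17 * ((i' : ℕ) : ℝ) - 17 * ((i : ℕ) : ℝ)) =
      17 * ((i' : ℕ) : ℝ) := by ring
    rw [e5] at hX1 hX2
    simp only [Matrix.cons_val]
    refine ⟨hX1, ?_⟩
    rw [cy_eq hn]
    unfold pp
    linarith
  · -- planes
    have hne : cs n k - ((k' : ℕ) : ℝ) * kap n ≠ 0 := by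
      have e1 : cs n k - ((k' : ℕ) : ℝ) * kap n =
          -(((((k' : ℕ) : ℤ) - ((k : ℕ) : ℤ) : ℤ) - 1 / 2 : ℝ)) * kap n := by
        unfold cs; push_cast; ring
      rw [e1]
      have := half_le_abs (((k' : ℕ) : ℤ) - ((k : ℕ) : ℤ))
      have h2 : ((((k' : ℕ) : ℤ) - ((k : ℕ) : ℤ) : ℤ) - 1 / 2 : ℝ) ≠ 0 := by
        intro h
        rw [h, abs_zero] at this
        norm_num at this
      exact mul_ne_zero (neg_ne_zero.mpr h2) hκ.ne'
    refine ⟨_, pt_mem_rep n i j k ((bit b - (17 * ((i : ℕ) : ℝ) + aa n j)) /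
      (cs n k - ((k' : ℕ) : ℝ) * kap n)), ?_⟩
    rw [mem_GZ]
    simp only [Matrix.cons_val]
    field_simp
    ring
  · refine ⟨_, pt_mem_rep n i j k (5 + ((l : ℕ) : ℝ)), ?_⟩
    rw [mem_GW]
    simp

lemma rep_in {n : ℕ} (hn : 1 ≤ n) (i j k : Fin n) :
    rep n i j k ∈ cellO (cy n i j) (1 / n) (cs n k) (kap n / 2) := by
  have hN : (0:ℝ) < n := by exact_mod_cast hn
  have hκ := kap_pos hn
  unfold rep
  rw [mem_cellO_iff]
  constructor
  · simp; exact hn
  · simp; exact hκ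

lemma rep_sep {n : ℕ} (hn : 1 ≤ n) (i j k i' j' k' : Fin n)
    (h : rep n i' j' k' ∈ cellO (cy n i j) (1 / n) (cs n k) (kap n / 2)) :
    i' = i ∧ j' = j ∧ k' = k := by
  have hN : (0:ℝ) < n := by exact_mod_cast hn
  have hκ := kap_pos hn
  unfold rep at h
  rw [mem_cellO_iff] at h
  obtain ⟨h1, h2⟩ := h
  simp only [Matrix.cons_val, mul_one, abs_one] at h1 h2
  have e1 : cy n i' j' - cy n i j =
      ((17 * (n : ℤ) * (((i' : ℕ) : ℤ) - ((i : ℕ) : ℤ)) +
        2 * (((j' : ℕ) : ℤ) - ((j : ℕ) : ℤ)) : ℤ) : ℝ) / n := by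
    unfold cy; push_cast; field_simp; ring
  rw [e1, abs_div, abs_of_pos hN, div_lt_div_iff_of_pos_right hN] at h1
  have e2 : |17 * (n : ℤ) * (((i' : ℕ) : ℤ) - ((i : ℕ) : ℤ)) +
        2 * (((j' : ℕ) : ℤ) - ((j : ℕ) : ℤ))| < 1 := by exact_mod_cast h1
  rw [Int.abs_lt_one_iff] at e2
  have hi'n := i'.2
  have hin := i.2
  have hj'n := j'.2
  have hjn := j.2
  have e3 : ((i' : ℕ) : ℤ) - ((i : ℕ) : ℤ) = 0 := by
    rcases lt_trichotomy (((i' : ℕ) : ℤ) - ((i : ℕ) : ℤ)) 0 with h | h | h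
    · exfalso
      have : (n : ℤ) * (((i' : ℕ) : ℤ) - ((i : ℕ) : ℤ)) ≤ (n : ℤ) * (-1) :=
        mul_le_mul_of_nonneg_left (by omega) (by omega)
      nlinarith
    · exact h
    · exfalso
      have : (n : ℤ) * 1 ≤ (n : ℤ) * (((i' : ℕ) : ℤ) - ((i : ℕ) : ℤ)) :=
        mul_le_mul_of_nonneg_left (by omega) (by omega)
      nlinarith
  rw [e3] at e2
  have e4 : cs n k' - cs n k = ((((k' : ℕ) : ℤ) - ((k : ℕ) : ℤ) : ℤ) : ℝ) * kap n := by
    unfold cs; push_cast; ring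
  rw [e4, abs_mul, abs_of_pos hκ] at h2
  have e5 : |((((k' : ℕ) : ℤ) - ((k : ℕ) : ℤ) : ℤ) : ℝ)| < 1 := by
    have : |((((k' : ℕ) : ℤ) - ((k : ℕ) : ℤ) : ℤ) : ℝ)| * kap n < 1 * kap n := by linarith
    exact lt_of_mul_lt_mul_right this hκ.le
  have e6 : |((k' : ℕ) : ℤ) - ((k : ℕ) : ℤ)| < 1 := by exact_mod_cast e5
  rw [Int.abs_lt_one_iff] at e6
  refine ⟨Fin.ext (by omega), Fin.ext (by omega), Fin.ext (by omega)⟩

/-- Any family whose transversals are transversals of `G n r` and include the representative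
lines has at least `n ^ 3` components. -/
lemma cube_le {ι : Type*} {n : ℕ} (hn : 1 ≤ n) (r : ℕ) (F : ι → Set E3)
    (h1 : ∀ L, L ∈ transversals F → L ∈ transversals (G n r))
    (h2 : ∀ i j k, rep n i j k ∈ transversals F) : ((n : ℕ∞)) ^ 3 ≤ numComponents F := by
  have := card_le_numComponents F (κ := Fin n × Fin n × Fin n)
    (fun x => rep n x.1 x.2.1 x.2.2)
    (fun x => cellO (cy n x.1 x.2.1) (1 / n) (cs n x.2.2) (kap n / 2))
    (fun x => cellK (cy n x.1 x.2.1) (1 / n) (cs n x.2.2) (kap n / 2))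
    (fun x => isOpen_cellO _ _ _ _) (fun x => isClosed_cellK _ _ _ _)
    (fun x L hL => by
      obtain ⟨q, rfl⟩ := lineThrough_surjective L
      rw [mem_cellO_iff] at hL
      rw [mem_cellK_iff]
      exact ⟨hL.1.le, hL.2.le⟩)
    (fun x L hT hK => cell_forbid hn x.1 x.2.1 x.2.2 L (h1 L hT) hK)
    (fun x => h2 _ _ _) (fun x => rep_in hn _ _ _)
    (fun x x' h => by
      obtain ⟨e1, e2, e3⟩ := rep_sep hn _ _ _ _ _ _ h
      exact Prod.ext e1 (Prod.ext e2 e3))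
  calc ((n : ℕ∞)) ^ 3 = ENat.card (Fin n × Fin n × Fin n) := by
        simp [pow_succ, mul_assoc]
    _ ≤ _ := this

/-! ### Distinctness -/

lemma sgn_cases (b : Bool) : sgn b = 1 ∨ sgn b = -1 := by cases b <;> simp [sgn]

lemma bit_inj {b b' : Bool} (h : bit b = bit b') : b = b' := by
  cases b <;> cases b' <;> simp [bit] at h ⊢

lemma GB_low {n r : ℕ} (j : Fin (n + 1)) (h m : ℝ) :
    ∃ y : ℝ, y ≤ m ∧ (!₂[((j : ℕ) : ℝ) / (n : ℝ), y, h] : E3) ∈ G n r (Sum.inl j) := by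
  refine ⟨min m (((j : ℕ) : ℝ) / (n : ℝ) * h + (((j : ℕ) : ℝ) / (n : ℝ)) ^ 2 / 2),
    min_le_left _ _, ?_⟩
  rw [mem_GB]
  simp only [Matrix.cons_val]
  exact ⟨trivial, min_le_right _ _⟩

lemma GR_high {n r : ℕ} (i : Fin n) (b : Bool) (h : ℝ) :
    ∃ y : ℝ, (!₂[2 * sgn b + (h - 17 * ((i : ℕ) : ℝ)) / 4, y, h] : E3) ∈
      G n r (Sum.inr (Sum.inl (i, b))) := by
  refine ⟨sgn b * (4 * (h - 17 * ((i : ℕ) : ℝ)) + 2 * (17 * ((i : ℕ) : ℝ))) +
        (17 * ((i : ℕ) : ℝ)) * (h - 17 * ((i : ℕ) : ℝ)) / 4 + dl n, ?_⟩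
  rw [mem_GR]
  simp only [Matrix.cons_val]
  exact ⟨trivial, le_rfl⟩

lemma G_injective {n : ℕ} (hn : 1 ≤ n) (r : ℕ) : Function.Injective (G n r) := by
  have hN : (0:ℝ) < n := by exact_mod_cast hn
  have hN1 : (1:ℝ) ≤ n := by exact_mod_cast hn
  have hκ := kap_pos hn
  -- blue against the others
  have BR : ∀ j i b, G n r (Sum.inl j) ≠ G n r (Sum.inr (Sum.inl (i, b))) := by
    intro j i b h
    obtain ⟨y, hy1, hy2⟩ := GB_low (n := n) (r := r) j 0
      (sgn b * (4 * (0 - 17 * ((i : ℕ) : ℝ)) + 2 * (17 * ((i : ℕ) : ℝ))) +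
        (17 * ((i : ℕ) : ℝ)) * (0 - 17 * ((i : ℕ) : ℝ)) / 4 + dl n - 1)
    rw [h, mem_GR] at hy2
    simp only [Matrix.cons_val] at hy2
    linarith [hy2.2]
  have BZ : ∀ j k b, G n r (Sum.inl j) ≠ G n r (Sum.inr (Sum.inr (Sum.inl (k, b)))) := by
    intro j k b h
    obtain ⟨y, hy1, hy2⟩ := GB_low (n := n) (r := r) j 0 0
    obtain ⟨y', hy1', hy2'⟩ := GB_low (n := n) (r := r) j 1 0
    rw [h, mem_GZ] at hy2 hy2'
    simp only [Matrix.cons_val] at hy2 hy2'
    linarith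
  have BW : ∀ j l, G n r (Sum.inl j) ≠ G n r (Sum.inr (Sum.inr (Sum.inr l))) := by
    intro j l h
    obtain ⟨y, hy1, hy2⟩ := GB_low (n := n) (r := r) j 0 0
    rw [h, mem_GW] at hy2
    simp only [Matrix.cons_val] at hy2
    have e1 : ((j : ℕ) : ℝ) / (n : ℝ) ≤ 1 := by
      rw [div_le_one hN]; exact_mod_cast Nat.lt_succ_iff.mp j.2
    have e2 : (0:ℝ) ≤ ((l : ℕ) : ℝ) := by positivity
    linarith
  have RZ : ∀ i b k b', G n r (Sum.inr (Sum.inl (i, b))) ≠
      G n r (Sum.inr (Sum.inr (Sum.inl (k, b')))) := by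
    intro i b k b' h
    obtain ⟨y, hy⟩ := GR_high (n := n) (r := r) i b 0
    obtain ⟨y', hy'⟩ := GR_high (n := n) (r := r) i b 1
    rw [h, mem_GZ] at hy hy'
    simp only [Matrix.cons_val] at hy hy'
    have e1 : ((k : ℕ) : ℝ) * kap n ≤ 1 := by
      refine (kap_le hn k (Nat.lt_succ_iff.mp k.2)).trans (inv_sq_le_one hn)
    have e2 : ((k : ℕ) : ℝ) * kap n * (1 / 4) = 1 := by
      linear_combination hy - hy'
    linarith
  have RW : ∀ i b l, G n r (Sum.inr (Sum.inl (i, b))) ≠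
      G n r (Sum.inr (Sum.inr (Sum.inr l))) := by
    intro i b l h
    obtain ⟨y, hy⟩ := GR_high (n := n) (r := r) i b 0
    obtain ⟨y', hy'⟩ := GR_high (n := n) (r := r) i b 1
    rw [h, mem_GW] at hy hy'
    simp only [Matrix.cons_val] at hy hy'
    linarith
  have ZW : ∀ k b l, G n r (Sum.inr (Sum.inr (Sum.inl (k, b)))) ≠
      G n r (Sum.inr (Sum.inr (Sum.inr l))) := by
    intro k b l h
    have h1 : (!₂[0, 0, bit b] : E3) ∈ G n r (Sum.inr (Sum.inr (Sum.inl (k, b)))) := by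
      rw [mem_GZ]; simp
    rw [h, mem_GW] at h1
    simp only [Matrix.cons_val] at h1
    have e2 : (0:ℝ) ≤ ((l : ℕ) : ℝ) := by positivity
    linarith
  rintro (j | ⟨i, b⟩ | ⟨k, b⟩ | l) (j' | ⟨i', b'⟩ | ⟨k', b'⟩ | l') h
  · obtain ⟨y, hy1, hy2⟩ := GB_low (n := n) (r := r) j 0 0
    rw [h, mem_GB] at hy2
    simp only [Matrix.cons_val] at hy2
    have := hy2.1
    rw [div_left_inj' hN.ne'] at this
    have : (j : ℕ) = j' := by exact_mod_cast this
    rw [Fin.ext this]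
  · exact absurd h (BR _ _ _)
  · exact absurd h (BZ _ _ _)
  · exact absurd h (BW _ _)
  · exact absurd h.symm (BR _ _ _)
  · obtain ⟨y, hy⟩ := GR_high (n := n) (r := r) i b 0
    rw [h, mem_GR] at hy
    simp only [Matrix.cons_val] at hy
    have h1 := hy.1
    have h2 : 17 * (((i' : ℕ) : ℝ) - ((i : ℕ) : ℝ)) = 8 * (sgn b' - sgn b) := by
      linear_combination 4 * h1
    have h3 : ((i' : ℕ) : ℤ) - ((i : ℕ) : ℤ) = 0 ∧ sgn b' = sgn b := by
      rcases sgn_cases b with hb | hb <;> rcases sgn_cases b' with hb' | hb' <;>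
        rw [hb, hb'] at h2 ⊢
      · have : ((17 * (((i' : ℕ) : ℤ) - ((i : ℕ) : ℤ)) : ℤ) : ℝ) = ((0 : ℤ) : ℝ) := by
          push_cast; linarith
        have := Int.cast_injective this
        exact ⟨by omega, rfl⟩
      · have : ((17 * (((i' : ℕ) : ℤ) - ((i : ℕ) : ℤ)) : ℤ) : ℝ) = ((-16 : ℤ) : ℝ) := by
          push_cast; linarith
        have := Int.cast_injective this
        omega
      · have : ((17 * (((i' : ℕ) : ℤ) - ((i : ℕ) : ℤ)) : ℤ) : ℝ) = ((16 : ℤ) : ℝ) := by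
          push_cast; linarith
        have := Int.cast_injective this
        omega
      · have : ((17 * (((i' : ℕ) : ℤ) - ((i : ℕ) : ℤ)) : ℤ) : ℝ) = ((0 : ℤ) : ℝ) := by
          push_cast; linarith
        have := Int.cast_injective this
        exact ⟨by omega, rfl⟩
    have h4 : i = i' := Fin.ext (by omega)
    have h5 : b = b' := by
      have := h3.2
      cases b <;> cases b' <;> simp [sgn] at this ⊢ <;> norm_num at this
    rw [h4, h5]
  · exact absurd h (RZ _ _ _ _)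
  · exact absurd h (RW _ _ _)
  · exact absurd h.symm (BZ _ _ _)
  · exact absurd h.symm (RZ _ _ _ _)
  · have h1 : (!₂[0, 0, bit b] : E3) ∈ G n r (Sum.inr (Sum.inr (Sum.inl (k, b)))) := by
      rw [mem_GZ]; simp
    have h2 : (!₂[1, 0, ((k : ℕ) : ℝ) * kap n + bit b] : E3) ∈
        G n r (Sum.inr (Sum.inr (Sum.inl (k, b)))) := by
      rw [mem_GZ]; simp
    rw [h, mem_GZ] at h1 h2
    simp only [Matrix.cons_val] at h1 h2
    have h3 : bit b = bit b' := by linarith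
    have h4 : ((k : ℕ) : ℝ) * kap n = ((k' : ℕ) : ℝ) * kap n := by linarith
    have h5 := mul_right_cancel₀ hκ.ne' h4
    have h6 : (k : ℕ) = k' := by exact_mod_cast h5
    rw [Fin.ext h6, bit_inj h3]
  · exact absurd h (ZW _ _ _)
  · exact absurd h.symm (BW _ _)
  · exact absurd h.symm (RW _ _ _)
  · exact absurd h.symm (ZW _ _ _)
  · have h1 : (!₂[5 + ((l : ℕ) : ℝ), 0, 0] : E3) ∈ G n r (Sum.inr (Sum.inr (Sum.inr l))) := by
      rw [mem_GW]; simp
    rw [h, mem_GW] at h1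
    simp only [Matrix.cons_val] at h1
    have h2 : ((l : ℕ) : ℝ) = ((l' : ℕ) : ℝ) := by linarith
    have h3 : (l : ℕ) = l' := by exact_mod_cast h2
    rw [Fin.ext h3]

lemma card_Idx (n r : ℕ) : Fintype.card (Idx n r) = 5 * n + 3 + r := by
  simp [Idx]; ring

lemma exists_equiv {n r N : ℕ} (hN : N = 5 * n + 3 + r) : Nonempty (Fin N ≃ Idx n r) := by
  have : Fintype.card (Fin N) = Fintype.card (Idx n r) := by
    rw [card_Idx, Fintype.card_fin, hN]
  exact ⟨Fintype.equivOfCardEq this⟩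

theorem cube_le_C {s D n r N : ℕ} (hs : 2 ≤ s) (hD : 1 ≤ D) (hn : 1 ≤ n)
    (hN : N = 5 * n + 3 + r) : ((n : ℕ∞)) ^ 3 ≤ C s D N := by
  obtain ⟨e⟩ := exists_equiv hN
  have h1 : ((n : ℕ∞)) ^ 3 ≤ numComponents (fun i => G n r (e i)) := by
    apply cube_le hn r
    · intro L hL x
      have := hL (e.symm x)
      simpa using this
    · intro i j k x
      exact rep_hits hn r i j k (e x)
  refine h1.trans ?_
  unfold C
  refine le_iSup_of_le (fun i => G n r (e i)) ?_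
  refine le_iSup_of_le ((G_injective hn r).comp e.injective) ?_
  exact le_iSup_of_le (fun i => ⟨convex_HP _ _, hasComplexity_HP hs hD _ _⟩) le_rfl

theorem cube_le_Ccompact {s D n r N : ℕ} (hs : 8 ≤ s) (hD : 1 ≤ D) (hn : 1 ≤ n)
    (hN : N = 5 * n + 3 + r) : ((n : ℕ∞)) ^ 3 ≤ Ccompact s D N := by
  classical
  obtain ⟨e⟩ := exists_equiv hN
  -- hitting points
  choose w hw1 hw2 using fun (p : Fin n × Fin n × Fin n) (x : Idx n r) =>
    rep_hits hn r p.1 p.2.1 p.2.2 x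
  -- separating points
  have hsep : ∀ x y : Idx n r, ∃ v : E3, x ≠ y → ¬ (v ∈ G n r x ↔ v ∈ G n r y) := by
    intro x y
    by_cases hxy : x = y
    · exact ⟨0, fun h => absurd hxy h⟩
    · have : G n r x ≠ G n r y := fun h => hxy (G_injective hn r h)
      rw [Ne, Set.ext_iff, not_forall] at this
      obtain ⟨v, hv⟩ := this
      exact ⟨v, fun _ => hv⟩
  choose v hv using hsep
  obtain ⟨M1, hM1⟩ := (Set.finite_range
    (fun z : (Fin n × Fin n × Fin n) × Idx n r × Fin 3 => |w z.1 z.2.1 z.2.2|)).bddAbove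
  obtain ⟨M2, hM2⟩ := (Set.finite_range
    (fun z : Idx n r × Idx n r × Fin 3 => |v z.1 z.2.1 z.2.2|)).bddAbove
  obtain ⟨M, hM⟩ : ∃ M, M = max M1 M2 := ⟨_, rfl⟩
  have hwM : ∀ p x, w p x ∈ Box M := by
    intro p x i
    rw [hM]
    exact (hM1 ⟨(p, x, i), rfl⟩).trans (le_max_left _ _)
  have hvM : ∀ x y, v x y ∈ Box M := by
    intro x y i
    rw [hM]
    exact (hM2 ⟨(x, y, i), rfl⟩).trans (le_max_right _ _)
  have h1 : ((n : ℕ∞)) ^ 3 ≤ numComponents (fun i => G n r (e i) ∩ Box M) := by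
    apply cube_le hn r
    · intro L hL x
      obtain ⟨z, hz1, hz2⟩ := hL (e.symm x)
      refine ⟨z, hz1, ?_⟩
      have := hz2.1
      simpa using this
    · intro i j k x
      exact ⟨w (i, j, k) (e x), hw1 (i, j, k) (e x), hw2 (i, j, k) (e x), hwM _ _⟩
  refine h1.trans ?_
  unfold Ccompact
  refine le_iSup_of_le (fun i => G n r (e i) ∩ Box M) ?_
  refine le_iSup_of_le ?_ ?_
  · intro a b hab
    by_contra hne
    have hne' : e a ≠ e b := fun h => hne (e.injective h)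
    apply hv (e a) (e b) hne'
    have h3 := Set.ext_iff.mp hab (v (e a) (e b))
    simp only [Set.mem_inter_iff, hvM, and_true] at h3
    exact h3
  · refine le_iSup_of_le (fun i => ⟨?_, ?_, ?_⟩) le_rfl
    · exact (isCompact_Box M).inter_left (isClosed_HP _ _)
    · exact (convex_HP _ _).inter (convex_Box M)
    · exact hasComplexity_HP_box hs hD _ _ _

lemma cube_bound {N n r : ℕ} (hn : 1 ≤ n) (hr : r ≤ 4) (hN : N = 5 * n + 3 + r) :
    ((N : ℕ∞)) ^ 3 ≤ 1728 * ((n : ℕ∞)) ^ 3 := by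
  have h : N ^ 3 ≤ 1728 * n ^ 3 := by
    have h1 : N ≤ 12 * n := by omega
    calc N ^ 3 ≤ (12 * n) ^ 3 := Nat.pow_le_pow_left h1 3
      _ = 1728 * n ^ 3 := by ring
  exact_mod_cast h

/-- Cubic lower bound for the number of connected components of the line transversal space. -/
theorem result (s D : ℕ) (hs : 2 ≤ s) (hD : 1 ≤ D) :
    (∀ N : ℕ, 8 ≤ N → ((N : ℕ∞)) ^ 3 ≤ 1728 * C s D N) ∧
    (8 ≤ s → ∀ N : ℕ, 8 ≤ N → ((N : ℕ∞)) ^ 3 ≤ 1728 * Ccompact s D N) := by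
  have key : ∀ N : ℕ, 8 ≤ N → ∃ n r : ℕ, 1 ≤ n ∧ r ≤ 4 ∧ N = 5 * n + 3 + r := by
    intro N hN
    refine ⟨(N - 3) / 5, (N - 3) % 5, ?_, ?_, ?_⟩ <;> omega
  constructor
  · intro N hN
    obtain ⟨n, r, hn, hr, h⟩ := key N hN
    exact (cube_bound hn hr h).trans (mul_le_mul_right (cube_le_C hs hD hn h) _)
  · intro hs8 N hN
    obtain ⟨n, r, hn, hr, h⟩ := key N hN
    exact (cube_bound hn hr h).trans (mul_le_mul_right (cube_le_Ccompact hs8 hD hn h) _)

end Pool.Agent.Results.MP_ce02af_co.CubicComponents
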